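import Pool.Agent.H92.S2.LUT2
import Pool.Agent.H16.SM.LED

/-!
# LON2: lower bound for large twist, reduced curves (copy of the row LON of helper10)
-/

set_option autoImplicit false

namespace Pool.Agent.H73.SFV

open MvPolynomial
open Pool.Agent.H84.SM (dp cr dt)
open Pool.Agent.H3.SF Pool.Agent.H3.S2 Pool.Agent.H92.SF Pool.Agent.H92.S2

theorem pf_LON2 (hFIN : T_FIN2) (hDAT : T_DAT2) (hLTC : T_LTC2) (hKER : T_KER2) : T_LON2 := by
  intro k F _ _ _ _ _ u dd δ j0 c0 J m G hB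
  obtain ⟨-, -, hJ, hmG, -, -, -, -, -, -⟩ := hDAT k F u dd δ j0 c0 J m G hB
  intro sg S hS hsg
  obtain ⟨c1, e1, hL⟩ := hLTC k F u dd δ j0 c0 J m G hB sg S hS hsg
  refine ⟨c1, (m - 1) * c1 + e1 + c1 * (j0 + sg), ?_⟩
  intro n τ hτ
  choose L hLf hL1 hL2 using hKER k F u dd δ j0 c0 J m G hB sg S hS
  have hS0 : aeval u S ≠ 0 := fun h => hS.S0 (hB.ind (by rw [h, map_zero]))
  have hbig := hB.big
  obtain ⟨e, he⟩ : ∃ e : ℕ → ℤ, ∀ N, e N = (τ : ℤ) + (m - (j0 + sg)) * N - n - c1 * (j0 + sg) :=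
    ⟨_, fun _ => rfl⟩
  obtain ⟨c, hc⟩ : ∃ c : ℕ → MvPolynomial (Fin 2) F, ∀ N, c N =
      C ((aeval u J * aeval u S) ^ (N + c1) * (((m : F) * G)⁻¹) ^ N) := ⟨_, fun _ => rfl⟩
  have hc0 : ∀ N, c N ≠ 0 := by
    intro N
    rw [hc, Ne, C_eq_zero]
    exact mul_ne_zero (pow_ne_zero _ (mul_ne_zero hJ hS0)) (pow_ne_zero _ (inv_ne_zero hmG))
  have hf : ∀ N, Function.Injective (LinearMap.mulLeft k (c N)) := by
    intro N a b hab
    exact mul_left_cancel₀ (hc0 N) hab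
  have hE := hFIN k F u dd δ j0 c0 J m G hB n τ
  obtain ⟨φ, hφ⟩ : ∃ φ : ℕ → (E u dd J m G n τ →ₗ[k] MvPolynomial (Fin 2) F),
      ∀ N V, φ N V = Polynomial.coeff (V : Q2 F) N :=
    ⟨fun N =>
      { toFun := fun V => Polynomial.coeff (V : Q2 F) N
        map_add' := fun x y => Polynomial.coeff_add _ _ _
        map_smul' := fun r x => Polynomial.coeff_smul _ _ _ }, fun _ _ => rfl⟩
  obtain ⟨g, hg⟩ : ∃ g : ℕ → ℕ, ∀ N, g N = Module.finrank k
      ((L (n - 3 * N) (e N)).map (LinearMap.mulLeft k (c N))) := ⟨_, fun _ => rfl⟩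
  have hgL : ∀ N, g N = Module.finrank k (L (n - 3 * N) (e N)) := by
    intro N
    rw [hg]
    exact ((Submodule.equivMapOfInjective _ (hf N) (L (n - 3 * N) (e N))).finrank_eq).symm
  -- the bound for `e`
  have hje : ∀ N, 3 * N ≤ n → ∃ ε : ℕ, (ε : ℤ) = e N ∧ (m - 1) * (N + c1) + e1 ≤ ε := by
    intro N hN
    obtain ⟨m', hm'⟩ : ∃ m', m = m' + 1 := ⟨m - 1, by omega⟩
    have h0 : (m - 1) = m' := by omega
    have h1 : (((m - 1) * (N + c1) + e1 : ℕ) : ℤ) ≤ e N := by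
      rw [he, h0]
      rw [h0] at hτ
      have h2 : (((j0 + sg + 2) * n + (m' * c1 + e1 + c1 * (j0 + sg)) : ℕ) : ℤ) ≤ τ := by
        exact_mod_cast hτ
      have h3 : (0 : ℤ) ≤ ((j0 : ℤ) + sg) * ((n : ℤ) - N) := by
        refine mul_nonneg (by positivity) ?_
        have : (3 * N : ℤ) ≤ n := by exact_mod_cast hN
        omega
      have h4 : (N : ℤ) ≤ n := by
        have : (3 * N : ℤ) ≤ n := by exact_mod_cast hN
        omega
      have h5 : (0 : ℤ) ≤ N := by positivity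
      have h6 : (m : ℤ) = m' + 1 := by exact_mod_cast hm'
      rw [h6]
      push_cast at h2 ⊢
      nlinarith
    have h2 : 0 ≤ e N := le_trans (by positivity) h1
    refine ⟨(e N).toNat, by omega, ?_⟩
    have h3 : (((m - 1) * (N + c1) + e1 : ℕ) : ℤ) ≤ ((e N).toNat : ℤ) := by
      rw [Int.toNat_of_nonneg h2]
      exact h1
    exact_mod_cast h3
  have h1 := Pool.Agent.H16.SM.pf_LEL k (E u dd J m G n τ) (MvPolynomial (Fin 2) F) (n / 3 + 1)
    (fun x => φ (n / 3 - x)) (fun x => (L (n - 3 * (n / 3 - x)) (e (n / 3 - x))).map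
      (LinearMap.mulLeft k (c (n / 3 - x)))) hE (fun x => by
        have := hLf (n - 3 * (n / 3 - x)) (e (n / 3 - x))
        infer_instance) (by
      intro x f hf'
      obtain ⟨N, hN⟩ : ∃ N, N = n / 3 - (x : ℕ) := ⟨_, rfl⟩
      rw [← hN] at hf' ⊢
      obtain ⟨f0, hf0, rfl⟩ := Submodule.mem_map.1 hf'
      obtain ⟨b, hb1, hb2, hb3⟩ := hL1 _ _ f0 hf0
      have hN3 : 3 * N ≤ n := by omega
      obtain ⟨ε, hε, hε2⟩ := hje N hN3
      rw [← hε] at hb2
      obtain ⟨V, hV1, hV2, hV3⟩ := hL N (n - 3 * N) ε b hε2 hb1 hb2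
      have hn : n - 3 * N + 3 * N = n := by omega
      have ht : (ε : ℤ) + c1 * (j0 + sg) + N * ((j0 : ℤ) + sg + 3 - m) + ((n - 3 * N : ℕ) : ℤ) = τ := by
        rw [hε, he]
        push_cast [Nat.cast_sub hN3]
        ring
      rw [hn, ht] at hV1
      refine ⟨⟨V, hV1⟩, ?_, ?_⟩
      · intro j hj
        rw [hφ]
        refine Polynomial.coeff_eq_zero_of_natDegree_lt (lt_of_le_of_lt hV2 ?_)
        have h2 : (j : ℕ) < x := hj
        have h3 := x.2
        omega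
      · rw [hφ, LinearMap.mulLeft_apply, hc, ← hb3]
        exact hV3)
  have h2 : ∑ x : Fin (n / 3 + 1), Module.finrank k ((L (n - 3 * (n / 3 - x)) (e (n / 3 - x))).map
      (LinearMap.mulLeft k (c (n / 3 - x)))) = ∑ N ∈ Finset.range (n / 3 + 1), g N := by
    rw [← Finset.sum_range_reflect, ← Fin.sum_univ_eq_sum_range (fun x => g (n / 3 + 1 - 1 - x))]
    refine Finset.sum_congr rfl fun x _ => ?_
    rw [hg, Nat.add_sub_cancel]
  rw [h2] at h1
  refine le_trans ?_ (Int.ofNat_le.2 h1)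
  rw [Nat.cast_sum]
  refine Finset.sum_le_sum fun N hN => ?_
  have h3 := hL2 (n - 3 * N) (e N)
  rw [hgL, ← he]
  have h4 : ((Module.finrank k (BB k u (eu u dd) (e N)) * (n - 3 * N + 2).choose 2 : ℕ) : ℤ) ≤
    ((Module.finrank k (L (n - 3 * N) (e N)) +
      Module.finrank k (BB k u (eu u dd) (e N - m + 1 + sg)) * (n - 3 * N + 1).choose 2 : ℕ) : ℤ) := by
    exact_mod_cast h3
  push_cast at h4
  linarith

end Pool.Agent.H73.SFV
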